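import Pool.Agent.W5h55.BT.Bochner

/-! Bochner's tube theorem (helper55) in product coordinates `(Fin k → ℂ) × ℂ`. -/

namespace Pool.Agent.W5h80.BT

open Set

/-- From functions on `Option (Fin k)` to the product. -/
def ofO (𝕜 : Type) [RCLike 𝕜] (k : ℕ) : (Option (Fin k) → 𝕜) →L[𝕜] ((Fin k → 𝕜) × 𝕜) where
  toFun x := (fun i => x (some i), x none)
  map_add' _ _ := rfl
  map_smul' _ _ := rfl
  cont := by fun_prop

/-- From the product to functions on `Option (Fin k)`. -/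
def toO (𝕜 : Type) [RCLike 𝕜] (k : ℕ) : ((Fin k → 𝕜) × 𝕜) →L[𝕜] (Option (Fin k) → 𝕜) where
  toFun p := fun o => o.elim p.2 p.1
  map_add' p q := by
    funext o; cases o <;> rfl
  map_smul' c p := by
    funext o; cases o <;> rfl
  cont := by
    refine continuous_pi fun o => ?_
    cases o with
    | none => exact continuous_snd
    | some i => exact (continuous_apply i).comp continuous_fst

theorem ofO_toO {𝕜 : Type} [RCLike 𝕜] {k : ℕ} (p : (Fin k → 𝕜) × 𝕜) : ofO 𝕜 k (toO 𝕜 k p) = p := rfl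

theorem toO_ofO {𝕜 : Type} [RCLike 𝕜] {k : ℕ} (x : Option (Fin k) → 𝕜) :
    toO 𝕜 k (ofO 𝕜 k x) = x := by
  funext o; cases o <;> rfl

theorem norm_ofO {k : ℕ} (x : Option (Fin k) → ℝ) : ‖ofO ℝ k x‖ = ‖x‖ := by
  apply le_antisymm
  · rw [Prod.norm_def]
    refine max_le ?_ (norm_le_pi_norm x none)
    exact (pi_norm_le_iff_of_nonneg (norm_nonneg _)).2 fun i => norm_le_pi_norm x (some i)
  · refine (pi_norm_le_iff_of_nonneg (norm_nonneg _)).2 fun o => ?_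
    cases o with
    | none => exact norm_snd_le (ofO ℝ k x)
    | some i => exact (norm_le_pi_norm (ofO ℝ k x).1 i).trans (norm_fst_le (ofO ℝ k x))

theorem bochner_prod (k : ℕ) (U : Set ((Fin k → ℝ) × ℝ)) (hU : IsOpen U)
    (hc : IsPreconnected U) (G : (Fin k → ℂ) × ℂ → ℂ)
    (hd : DifferentiableOn ℂ G
      {z | ((fun i => (z.1 i).re, z.2.re) : (Fin k → ℝ) × ℝ) ∈ U})
    (hb : ∀ K ⊆ U, IsCompact K → ∃ (C : ℝ) (N : ℕ), ∀ z : (Fin k → ℂ) × ℂ,
      ((fun i => (z.1 i).re, z.2.re) : (Fin k → ℝ) × ℝ) ∈ K →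
        ‖G z‖ ≤ C * (1 + ‖((fun i => (z.1 i).im, z.2.im) : (Fin k → ℝ) × ℝ)‖) ^ N) :
    ∃ H : (Fin k → ℂ) × ℂ → ℂ,
      DifferentiableOn ℂ H
        {z | ((fun i => (z.1 i).re, z.2.re) : (Fin k → ℝ) × ℝ) ∈ convexHull ℝ U} ∧
      (∀ K ⊆ convexHull ℝ U, IsCompact K → ∃ (C : ℝ) (N : ℕ), ∀ z : (Fin k → ℂ) × ℂ,
        ((fun i => (z.1 i).re, z.2.re) : (Fin k → ℝ) × ℝ) ∈ K →
          ‖H z‖ ≤ C * (1 + ‖((fun i => (z.1 i).im, z.2.im) : (Fin k → ℝ) × ℝ)‖) ^ N) ∧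
      ∀ z : (Fin k → ℂ) × ℂ,
        ((fun i => (z.1 i).re, z.2.re) : (Fin k → ℝ) × ℝ) ∈ U → H z = G z := by
  have hWeq : (ofO ℝ k) ⁻¹' U = (toO ℝ k) '' U := by
    ext x
    constructor
    · intro hx
      exact ⟨ofO ℝ k x, hx, toO_ofO x⟩
    · rintro ⟨p, hp, rfl⟩
      exact hp
  have hhull : convexHull ℝ ((ofO ℝ k) ⁻¹' U) = (ofO ℝ k) ⁻¹' (convexHull ℝ U) := by
    rw [hWeq]
    have h1 : convexHull ℝ ((toO ℝ k) '' U) = (toO ℝ k) '' (convexHull ℝ U) :=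
      ((toO ℝ k).toLinearMap.image_convexHull U).symm
    rw [h1]
    ext x
    constructor
    · rintro ⟨p, hp, rfl⟩
      exact hp
    · intro hx
      exact ⟨ofO ℝ k x, hx, toO_ofO x⟩
  obtain ⟨H, hH1, hH2, hH3⟩ := Pool.Agent.W5h55.BT.bochner ((ofO ℝ k) ⁻¹' U)
    (hU.preimage (ofO ℝ k).continuous)
    (by
      rw [hWeq]
      exact hc.image _ (toO ℝ k).continuous.continuousOn)
    (fun z => G (ofO ℂ k z))
    (by
      refine hd.comp (ofO ℂ k).differentiable.differentiableOn ?_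
      intro z hz
      exact hz)
    (by
      intro K hK hKW
      obtain ⟨C, N, hCN⟩ := hb ((ofO ℝ k) '' K)
        (by rintro _ ⟨x, hx, rfl⟩; exact hKW hx)
        (hK.image (ofO ℝ k).continuous)
      refine ⟨C, N, fun z hz => ?_⟩
      have h := hCN (ofO ℂ k z) ⟨_, hz, rfl⟩
      have h2 : ((fun i => ((ofO ℂ k z).1 i).im, (ofO ℂ k z).2.im) : (Fin k → ℝ) × ℝ) =
        ofO ℝ k (fun j => (z j).im) := rfl
      rw [h2, norm_ofO] at h
      exact h)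
  refine ⟨fun z => H (toO ℂ k z), ?_, ?_, ?_⟩
  · refine hH1.comp (toO ℂ k).differentiable.differentiableOn ?_
    intro z hz
    show (fun j => (toO ℂ k z j).re) ∈ convexHull ℝ ((ofO ℝ k) ⁻¹' U)
    rw [hhull]
    exact hz
  · intro K hKU hK
    obtain ⟨C, N, hCN⟩ := hH2 ((toO ℝ k) '' K) (hK.image (toO ℝ k).continuous)
      (by
        rintro _ ⟨p, hp, rfl⟩
        rw [hhull]
        exact hKU hp)
    refine ⟨C, N, fun z hz => ?_⟩
    have h := hCN (toO ℂ k z) ⟨_, hz, by funext o; cases o <;> rfl⟩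
    have h2 : (((fun i => (z.1 i).im, z.2.im) : (Fin k → ℝ) × ℝ)) =
        ofO ℝ k (fun j => (toO ℂ k z j).im) := rfl
    rw [h2, norm_ofO]
    exact h
  · intro z hz
    have h : (toO ℂ k z) ∈ {z : Option (Fin k) → ℂ | (fun j => (z j).re) ∈ (ofO ℝ k) ⁻¹' U} := hz
    exact (hH3 h).symm

end Pool.Agent.W5h80.BT
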